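import Pool.Agent.H500.HC.Stm
import Pool.Graph.R_seed8.W528.Ord.Dens

/-! Part C4 of project HC: the places of degree at least two have density zero. -/

set_option autoImplicit false

namespace Pool.Agent.H354.HC.Deg

theorem main : Pool.Agent.H500.HC.S_Deg := by
  intro E _ _
  exact Pool.Agent.W528.Ord.dens_not_prime

end Pool.Agent.H354.HC.Deg
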